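import Pool.Agent.ASO.Stmts4

open scoped BigOperators

set_option linter.unusedSectionVars false

noncomputable section

namespace Pool.Agent.PP.SO.H59

open Pool.Agent.Helper51_AWC Pool.Agent.Helper79_WRA Pool.Agent.PP Pool.Agent.PP.KF
open Pool.Agent.PP.K9 Pool.Agent.PP.K9.H97 Pool.Agent.PP.H75 Pool.Agent.PP.T3 Pool.Agent.PP.SO

theorem finsum_mem_ite {α : Type} [Fintype α] (p : α → Prop) [DecidablePred p] (f : α → ℂ) :
    ∑ᶠ w ∈ {w | p w}, f w = ∑ w, if p w then f w else 0 := by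
  rw [finsum_mem_def, finsum_eq_sum_of_fintype]
  refine Finset.sum_congr rfl fun w _ => ?_
  by_cases h : p w
  · rw [if_pos h]
    exact Set.indicator_of_mem (s := {w | p w}) h f
  · rw [if_neg h]
    exact Set.indicator_of_notMem (s := {w | p w}) h f

section lin

variable {V₀ : Type} [CommGroup V₀] [Finite V₀]

theorem lin_pow {f : V₀ → ℂ} (hf : f ∈ lin V₀) (v : V₀) (n : ℕ) : f (v ^ n) = f v ^ n := by
  induction n with
  | zero => rw [pow_zero, pow_zero, hf.1]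
  | succ n ih => rw [pow_succ, hf.2, ih, pow_succ]

/-- the conjugate of a value of a linear character -/
theorem lin_conj {f : V₀ → ℂ} (hf : f ∈ lin V₀) (v : V₀) : starRingEnd ℂ (f v⁻¹) = f v := by
  have h1 : f v * f v⁻¹ = 1 := by rw [← hf.2, mul_inv_cancel, hf.1]
  have h2 : f v⁻¹ ^ Nat.card V₀ = 1 := by
    rw [← lin_pow hf, pow_card_eq_one', hf.1]
  have h3 : ‖f v⁻¹‖ = 1 := Complex.norm_eq_one_of_pow_eq_one h2 Nat.card_pos.ne'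
  have h4 : starRingEnd ℂ (f v⁻¹) * f v⁻¹ = 1 := by
    rw [mul_comm, Complex.mul_conj, Complex.normSq_eq_norm_sq, h3]
    norm_num
  have h5 : f v⁻¹ ≠ 0 := by
    intro h
    rw [h, norm_zero] at h3
    exact zero_ne_one h3
  exact mul_right_cancel₀ h5 (h4.trans h1.symm)

end lin

section grp

variable {ℓ : ℕ} [Fact ℓ.Prime] {V₀ : Type} [CommGroup V₀] [Finite V₀]

/-- two different subgroups -/
theorem sup_top (hc : Nat.card V₀ = ℓ ^ 2) {W : Subgroup V₀} (hW : W ≠ ⊥) {y : V₀} (hy : y ∉ W) :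
    W ⊔ Subgroup.zpowers y = ⊤ := by
  have hp : ℓ.Prime := Fact.out
  have h1 : Nat.card W ∣ ℓ ^ 2 := hc ▸ Subgroup.card_subgroup_dvd_card W
  have h2 : Nat.card (W ⊔ Subgroup.zpowers y : Subgroup V₀) ∣ ℓ ^ 2 :=
    hc ▸ Subgroup.card_subgroup_dvd_card _
  have h3 : W < W ⊔ Subgroup.zpowers y := by
    refine lt_of_le_of_ne le_sup_left fun h => hy ?_
    rw [h]
    exact (le_sup_right : Subgroup.zpowers y ≤ _) (Subgroup.mem_zpowers y)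
  have h4 : Nat.card W < Nat.card (W ⊔ Subgroup.zpowers y : Subgroup V₀) := by
    have h5 := Set.ncard_lt_ncard (s := (W : Set V₀)) (t := (W ⊔ Subgroup.zpowers y : Subgroup V₀))
      (SetLike.coe_ssubset_coe.2 h3)
    rw [← Nat.card_coe_set_eq, ← Nat.card_coe_set_eq] at h5
    exact h5
  have h6 : 1 < Nat.card W := by
    rw [Subgroup.one_lt_card_iff_ne_bot]
    exact hW
  obtain ⟨i, hi, hi'⟩ := (Nat.dvd_prime_pow hp).1 h1
  obtain ⟨j, hj, hj'⟩ := (Nat.dvd_prime_pow hp).1 h2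
  rw [hi', hj'] at h4
  rw [hi'] at h6
  have h7 : i < j := (Nat.pow_lt_pow_iff_right hp.one_lt).1 h4
  have h8 : i ≠ 0 := by
    rintro rfl
    simp at h6
  have h9 : j = 2 := by omega
  rw [h9, ← hc] at hj'
  exact Subgroup.eq_top_of_card_eq _ hj'

end grp

section blk

variable {ℓ : ℕ} [Fact ℓ.Prime] {M : Ideal (integralClosure ℤ ℂ)} [M.IsMaximal]
  {V₀ G : Type} [CommGroup V₀] [Finite V₀] [Group G] [Finite G] {E₀ : Subgroup (MulAut V₀)}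
  {B : Bk (FF M) V₀ G}

theorem C_mono {W W' : Subgroup V₀} (h : W ≤ W') : B.C W' ≤ B.C W := by
  unfold Bk.C
  exact Subgroup.centralizer_le (Subgroup.map_mono h)

theorem i_mem_C (c : V₀) (W : Subgroup V₀) : B.i c ∈ B.C W := by
  unfold Bk.C
  rw [Subgroup.mem_centralizer_iff]
  rintro _ ⟨w, -, rfl⟩
  rw [← map_mul, ← map_mul, mul_comm]

theorem fc_out (W : Subgroup V₀) (c : V₀) {g : G} (hg : g ∉ B.C W) : fc B W c g = 0 := by
  unfold fc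
  rw [finsum_eq_zero_of_forall_eq_zero, mul_zero]
  intro z
  unfold bh PP.ext0
  rw [dif_neg]
  intro h
  have h1 := C_mono (B := B) (le_sup_left : W ≤ W ⊔ Subgroup.zpowers c) h
  apply hg
  have h2 : g = (z : G) * (B.i c * ((B.i c)⁻¹ * ((z : G)⁻¹ * g * z))) * (z : G)⁻¹ := by group
  rw [h2]
  exact (B.C W).mul_mem ((B.C W).mul_mem z.2 ((B.C W).mul_mem (i_mem_C c W) h1))
    ((B.C W).inv_mem z.2)

theorem D_pos (hB : Sy ℓ M E₀ B) {W : Subgroup V₀} (hW : W ≠ ⊥) : (0 : ℚ) < B.D W := by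
  exact_mod_cast (hB.dg W hW).1

theorem S_sq (hB : Sy ℓ M E₀ B) {W : Subgroup V₀} (hW : W ≠ ⊥) : (B.S W : ℚ) * B.S W = 1 := by
  rcases hB.sg W hW with h | h <;> rw [h] <;> norm_num

theorem C_pos (W : Subgroup V₀) : (0 : ℚ) < Nat.card (B.C W) := by
  exact_mod_cast Nat.card_pos

theorem S_top (hB : Sy ℓ M E₀ B) (h2 : ℓ ≠ 2) (ht : (⊤ : Subgroup V₀) ≠ ⊥) : B.S ⊤ = 1 := by
  rcases hB.sg ⊤ ht with h | h
  · exact h
  · exfalso
    obtain ⟨q, hq, hU⟩ := hB.un ⊤ ht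
    have hD := (D_pos hB ht).ne'
    have hC := (C_pos (B := B) ⊤).ne'
    have h3 : B.U ⊤ = -1 := by
      unfold Bk.U
      rw [h]
      push_cast
      field_simp
    rw [h3] at hU
    have hp : ℓ.Prime := Fact.out
    have hl0 : (ℓ : ℚ) ≠ 0 := by exact_mod_cast hp.ne_zero
    have h4 : q = ((-2 : ℤ) : ℚ) / ((ℓ : ℤ) : ℚ) := by
      push_cast
      rw [eq_div_iff hl0]
      linarith
    have h5 : ¬ ℓ ∣ q.den := hq
    apply h5
    have hcop : Nat.Coprime (Int.natAbs (-2)) (Int.natAbs (ℓ : ℤ)) := by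
      change Nat.Coprime 2 ℓ
      exact (Nat.coprime_primes Nat.prime_two hp).2 (Ne.symm h2)
    have h6 := Rat.den_div_eq_of_coprime (a := -2) (b := (ℓ : ℤ)) (by exact_mod_cast hp.pos) hcop
    rw [h4]
    have h7 : ((((-2 : ℤ) : ℚ) / ((ℓ : ℤ) : ℚ)).den : ℤ) = ℓ := h6
    have h8 : (((-2 : ℤ) : ℚ) / ((ℓ : ℤ) : ℚ)).den = ℓ := by exact_mod_cast h7
    rw [h8]

open Classical in
/-- the sign -/
def ep (B : Bk (FF M) V₀ G) (W : Subgroup V₀) (x : V₀) : ℚ := if x ∈ W then 1 else B.S W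

/-- the quotient of the degrees -/
theorem deg_quot (hc : Nat.card V₀ = ℓ ^ 2) (hB : Sy ℓ M E₀ B) {W : Subgroup V₀} (hW : W ≠ ⊥)
    (x : V₀) : (B.D (W ⊔ Subgroup.zpowers x) : ℚ) * Nat.card (B.C W) =
      ep B W x * ux B.U W x * (Nat.card (B.C (W ⊔ Subgroup.zpowers x)) * B.D W) := by
  unfold ep ux
  by_cases hx : x ∈ W
  · have h1 : W ⊔ Subgroup.zpowers x = W := sup_eq_left.2 ((Subgroup.zpowers_le).2 hx)
    rw [if_pos hx, if_pos hx, h1]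
    ring
  · rw [if_neg hx, if_neg hx, sup_top hc hW hx]
    have hD := (D_pos hB hW).ne'
    have hC := (C_pos (B := B) ⊤).ne'
    unfold Bk.U
    have h2 : (B.S W : ℚ) * ((B.S W : ℚ) * Nat.card (B.C W) * B.D ⊤ /
        (Nat.card (B.C ⊤) * B.D W)) * (Nat.card (B.C ⊤) * B.D W) =
        ((B.S W : ℚ) * B.S W) * (Nat.card (B.C W) * B.D ⊤) := by
      field_simp
    rw [h2, S_sq hB hW]
    ring

theorem ux_ne (hB : Sy ℓ M E₀ B) {W : Subgroup V₀} (hW : W ≠ ⊥) (x : V₀) :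
    ux B.U W x ≠ 0 := by
  unfold ux
  split_ifs with h
  · exact one_ne_zero
  · have hS : (B.S W : ℚ) ≠ 0 := by
      intro h0
      have := S_sq hB hW
      rw [h0, mul_zero] at this
      exact zero_ne_one this
    have hT : (⊤ : Subgroup V₀) ≠ ⊥ := fun h0 => h (by
      have : W = ⊥ := le_bot_iff.1 (h0 ▸ le_top)
      exact absurd this hW)
    unfold Bk.U
    have h1 := (D_pos hB hW).ne'
    have h2 := (D_pos hB hT).ne'
    have h3 := (C_pos (B := B) W).ne'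
    have h4 := (C_pos (B := B) ⊤).ne'
    exact div_ne_zero (mul_ne_zero (mul_ne_zero hS h3) h2) (mul_ne_zero h4 h1)

end blk

theorem ncard_ite {α : Type} [Fintype α] (p : α → Prop) [DecidablePred p] :
    ({w | p w}.ncard : ℂ) = ∑ w, if p w then (1 : ℂ) else 0 := by
  have h1 : ({w | p w} : Set α) = ((Finset.univ.filter p : Finset α) : Set α) := by
    ext w
    simp
  rw [h1, Set.ncard_coe_finset, Finset.sum_boole]

section blk2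

variable {ℓ : ℕ} [Fact ℓ.Prime] {M : Ideal (integralClosure ℤ ℂ)} [M.IsMaximal]
  {V₀ G : Type} [CommGroup V₀] [Finite V₀] [Group G] [Finite G] {E₀ : Subgroup (MulAut V₀)}
  {B : Bk (FF M) V₀ G}

theorem map_eq (L : Set (V₀ × V₀ × ℤ)) (τ : MulAut V₀) (y : V₀)
    (h : ∀ s ∈ L, τ (s.1 * y ^ s.2.2) = s.2.1) :
    (p1 L ⊔ Subgroup.zpowers y).map τ.toMonoidHom = p2 L ⊔ Subgroup.zpowers (τ y) := by
  have hz : (Subgroup.zpowers y).map τ.toMonoidHom = Subgroup.zpowers (τ y) :=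
    MonoidHom.map_zpowers _ _
  rw [Subgroup.map_sup, hz]
  apply le_antisymm
  · apply sup_le _ le_sup_right
    unfold p1
    rw [Subgroup.map_le_iff_le_comap, Subgroup.closure_le]
    rintro _ ⟨s, hs, rfl⟩
    change τ s.1 ∈ p2 L ⊔ Subgroup.zpowers (τ y)
    have h1 : τ s.1 = s.2.1 * ((τ y) ^ s.2.2)⁻¹ := by
      rw [← h s hs, map_mul, map_zpow, mul_inv_cancel_right]
    rw [h1]
    apply Subgroup.mul_mem
    · exact (le_sup_left : p2 L ≤ _) (Subgroup.subset_closure ⟨s, hs, rfl⟩)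
    · exact (le_sup_right : Subgroup.zpowers (τ y) ≤ p2 L ⊔ Subgroup.zpowers (τ y))
        (Subgroup.inv_mem _ (Subgroup.zpow_mem _ (Subgroup.mem_zpowers _) _))
  · apply sup_le _ le_sup_right
    unfold p2
    rw [Subgroup.closure_le]
    rintro _ ⟨s, hs, rfl⟩
    have h1 : s.2.1 = τ s.1 * (τ y) ^ s.2.2 := by
      rw [← h s hs, map_mul, map_zpow]
    rw [h1]
    apply Subgroup.mul_mem
    · exact (le_sup_left : (p1 L).map τ.toMonoidHom ≤ _)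
        ⟨s.1, Subgroup.subset_closure ⟨s, hs, rfl⟩, rfl⟩
    · exact (le_sup_right : Subgroup.zpowers (τ y) ≤ (p1 L).map τ.toMonoidHom ⊔ _)
        (Subgroup.zpow_mem _ (Subgroup.mem_zpowers _) _)

/-- the signs -/
theorem eps_eq (hCJT : CjtStmt) (hM : (ℓ : integralClosure ℤ ℂ) ∈ M) (h2 : ℓ ≠ 2)
    (hFr : Fr ℓ V₀ E₀) (hB : Sy ℓ M E₀ B) {W₁ W₂ : Subgroup V₀} (h1 : W₁ ≠ ⊥) (h2' : W₂ ≠ ⊥)
    {τ : MulAut V₀} (hτ : τ ∈ E₀) {y : V₀}
    (hmap : (W₁ ⊔ Subgroup.zpowers y).map τ.toMonoidHom = W₂ ⊔ Subgroup.zpowers (τ y)) :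
    ep B W₁ y * ep B W₂ (τ y) = B.S W₁ * B.S W₂ := by
  have hT : (⊤ : Subgroup V₀) ≠ ⊥ := fun h0 => h1 (le_bot_iff.1 (h0 ▸ le_top))
  have hmt : (⊤ : Subgroup V₀).map τ.toMonoidHom = ⊤ := by
    rw [← MonoidHom.range_eq_map]
    exact MonoidHom.range_eq_top.2 τ.surjective
  obtain ⟨t, ht, hti⟩ := hB.sur τ hτ
  have hcj := hCJT ℓ M hM h2 V₀ G E₀ hFr B hB τ hτ t ht hti
  unfold ep
  by_cases hy : y ∈ W₁
  · rw [if_pos hy, one_mul]
    have hw : W₁ ⊔ Subgroup.zpowers y = W₁ := sup_eq_left.2 ((Subgroup.zpowers_le).2 hy)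
    rw [hw] at hmap
    by_cases hy' : τ y ∈ W₂
    · rw [if_pos hy']
      have hw' : W₂ ⊔ Subgroup.zpowers (τ y) = W₂ := sup_eq_left.2 ((Subgroup.zpowers_le).2 hy')
      rw [hw'] at hmap
      have h3 := ((hcj W₁).2.2.2.2.2 h1).2.1
      rw [hmap] at h3
      rw [h3]
      exact (S_sq hB h1).symm
    · rw [if_neg hy']
      rw [sup_top hFr.cd h2' hy', ← hmt] at hmap
      have h3 : W₁ = ⊤ := Subgroup.map_injective τ.injective hmap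
      rw [h3, S_top hB h2 hT, Int.cast_one, one_mul]
  · rw [if_neg hy]
    rw [sup_top hFr.cd h1 hy, hmt] at hmap
    by_cases hy' : τ y ∈ W₂
    · rw [if_pos hy']
      have hw' : W₂ ⊔ Subgroup.zpowers (τ y) = W₂ := sup_eq_left.2 ((Subgroup.zpowers_le).2 hy')
      rw [hw'] at hmap
      rw [← hmap, S_top hB h2 hT, Int.cast_one]
    · rw [if_neg hy']

end blk2

theorem ux_inv {V₀ : Type} [CommGroup V₀] (U : Subgroup V₀ → ℚ) (W : Subgroup V₀) (y : V₀) :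
    ux U W y⁻¹ = ux U W y := by
  unfold ux
  rw [inv_mem_iff]

theorem ssl (hGPR : GprStmt) (hNSV : NsvStmt) (hCJT : CjtStmt) : SslStmt := by
  intro ℓ _ M _ hM h2 V₀ G _ _ _ _ E₀ hFr B hB n m hPE L h1 h2' χ hχ χ' hχ'
  classical
  have iG := Fintype.ofFinite G
  have iV := Fintype.ofFinite V₀
  have iA := Fintype.ofFinite (MulAut V₀)
  obtain ⟨bij1, -, -, inv1, -⟩ := hNSV ℓ M hM h2 V₀ G E₀ hFr B hB (p1 L) h1
  obtain ⟨bij2, -, -, inv2, -⟩ := hNSV ℓ M hM h2 V₀ G E₀ hFr B hB (p2 L) h2'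
  have hl1 : lam B (p1 L) χ ∈ lin V₀ := bij1.mapsTo hχ
  have hl2 : lam B (p2 L) χ' ∈ lin V₀ := bij2.mapsTo hχ'
  have hp : ℓ.Prime := Fact.out
  have hl0 : (ℓ : ℂ) ≠ 0 := by exact_mod_cast hp.ne_zero
  obtain ⟨c₁, hc₁⟩ : ∃ c : ℂ, c = (Nat.card (B.C (p1 L)) : ℂ) := ⟨_, rfl⟩
  obtain ⟨c₂, hc₂⟩ : ∃ c : ℂ, c = (Nat.card (B.C (p2 L)) : ℂ) := ⟨_, rfl⟩
  obtain ⟨K₁, hK₁⟩ : ∃ c : ℂ, c = c₁ / (ℓ ^ 2 * B.D (p1 L)) := ⟨_, rfl⟩
  obtain ⟨K₂, hK₂⟩ : ∃ c : ℂ, c = c₂ / (ℓ ^ 2 * B.D (p2 L)) := ⟨_, rfl⟩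
  obtain ⟨a, ha⟩ : ∃ a : V₀ → ℂ, a = fun x =>
    starRingEnd ℂ (lam B (p1 L) χ x) / ((ux B.U (p1 L) x : ℚ) : ℂ) := ⟨_, rfl⟩
  obtain ⟨b, hb⟩ : ∃ a : V₀ → ℂ, a = fun x =>
    starRingEnd ℂ (lam B (p2 L) χ' x) / ((ux B.U (p2 L) x : ℚ) : ℂ) := ⟨_, rfl⟩
  have hX : ∀ h : G, χ h = K₁ * ∑ x, a x * fc B (p1 L) x h⁻¹ := by
    intro h
    by_cases hh : h ∈ B.C (p1 L)
    · rw [inv1 χ hχ h hh, finsum_eq_sum_of_fintype, hK₁, hc₁, ha]
    · rw [hχ.1 h hh, Finset.sum_eq_zero, mul_zero]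
      intro x _
      rw [fc_out _ _ (fun h0 => hh (by simpa using (B.C (p1 L)).inv_mem h0)), mul_zero]
  have hX' : ∀ h : G, χ' h = K₂ * ∑ x, b x * fc B (p2 L) x h⁻¹ := by
    intro h
    by_cases hh : h ∈ B.C (p2 L)
    · rw [inv2 χ' hχ' h hh, finsum_eq_sum_of_fintype, hK₂, hc₂, hb]
    · rw [hχ'.1 h hh, Finset.sum_eq_zero, mul_zero]
      intro x _
      rw [fc_out _ _ (fun h0 => hh (by simpa using (B.C (p2 L)).inv_mem h0)), mul_zero]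
  -- the set of conditions with opposite exponents
  obtain ⟨Lm, hLm⟩ : ∃ Lm : Set (V₀ × V₀ × ℤ), Lm = {s | (s.1, s.2.1, -s.2.2) ∈ L} := ⟨_, rfl⟩
  have hp1 : p1 Lm = p1 L := by
    unfold p1
    congr 1
    ext p
    constructor
    · rintro ⟨s, hs, rfl⟩
      rw [hLm] at hs
      exact ⟨_, hs, rfl⟩
    · rintro ⟨s, hs, rfl⟩
      refine ⟨(s.1, s.2.1, -s.2.2), ?_, rfl⟩
      rw [hLm]
      change (s.1, s.2.1, - -s.2.2) ∈ L
      rw [neg_neg]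
      exact hs
  have hp2 : p2 Lm = p2 L := by
    unfold p2
    congr 1
    ext p
    constructor
    · rintro ⟨s, hs, rfl⟩
      rw [hLm] at hs
      exact ⟨_, hs, rfl⟩
    · rintro ⟨s, hs, rfl⟩
      refine ⟨(s.1, s.2.1, -s.2.2), ?_, rfl⟩
      rw [hLm]
      change (s.1, s.2.1, - -s.2.2) ∈ L
      rw [neg_neg]
      exact hs
  obtain ⟨E, hE⟩ : ∃ E : V₀ → ℂ, E = fun x =>
    ℓ ^ 2 * B.D (p1 L ⊔ Subgroup.zpowers x) ^ 2 /
      (Nat.card (B.C (p1 L ⊔ Subgroup.zpowers x)) : ℂ) ^ 2 := ⟨_, rfl⟩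
  -- the inner sum
  have hT : ∀ x x' : V₀, (∑ w : G × G, if (∀ s ∈ L, w.2 * B.i s.2.1 * w.2⁻¹ =
      B.i s.1 * (w.1 ^ m) ^ s.2.2) then fc B (p1 L) x w.1⁻¹ * fc B (p2 L) x' (w.2⁻¹ * w.1 * w.2)
      else 0) = c₁ * c₂ * E x * ∑ τ : MulAut V₀,
        if (τ ∈ E₀ ∧ τ x = x'⁻¹ ∧ ∀ s ∈ Lm, τ (s.1 * x ^ s.2.2) = s.2.1) then (1 : ℂ) else 0 := by
    intro x x'
    have h3 := hGPR ℓ M hM h2 V₀ G E₀ hFr B hB n m hPE Lm (hp1 ▸ h1) (hp2 ▸ h2') x x'⁻¹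
    rw [finsum_mem_ite, hp1, hp2, inv_inv, ncard_ite, ← hc₁, ← hc₂] at h3
    have hEx : E x = ℓ ^ 2 * B.D (p1 L ⊔ Subgroup.zpowers x) ^ 2 /
      (Nat.card (B.C (p1 L ⊔ Subgroup.zpowers x)) : ℂ) ^ 2 := by rw [hE]
    rw [hEx]
    rw [← h3]
    rw [← Equiv.sum_comp (Equiv.prodCongr (Equiv.inv G) (Equiv.refl G))]
    refine Finset.sum_congr rfl fun w _ => ?_
    change (if (∀ s ∈ L, w.2 * B.i s.2.1 * w.2⁻¹ = B.i s.1 * (w.1⁻¹ ^ m) ^ s.2.2) then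
      fc B (p1 L) x (w.1⁻¹)⁻¹ * fc B (p2 L) x' (w.2⁻¹ * w.1⁻¹ * w.2) else 0) = _
    rw [inv_inv]
    refine if_congr ?_ rfl rfl
    constructor
    · intro h s hs
      rw [hLm] at hs
      have := h _ hs
      simp only at this
      rw [this, inv_pow, zpow_neg, inv_zpow, inv_inv]
    · intro h s hs
      have h4 : (s.1, s.2.1, -s.2.2) ∈ Lm := by
        rw [hLm]
        change (s.1, s.2.1, - -s.2.2) ∈ L
        rw [neg_neg]
        exact hs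
      have := h _ h4
      simp only at this
      rw [this, inv_pow, inv_zpow, zpow_neg]
  -- the expansion
  have hS : SL B m L χ χ' = K₁ * K₂ * ∑ x, ∑ x', a x * b x' * (∑ w : G × G,
      if (∀ s ∈ L, w.2 * B.i s.2.1 * w.2⁻¹ = B.i s.1 * (w.1 ^ m) ^ s.2.2) then
        fc B (p1 L) x w.1⁻¹ * fc B (p2 L) x' (w.2⁻¹ * w.1 * w.2) else 0) := by
    unfold SL
    rw [finsum_mem_ite]
    have h3 : ∀ w : G × G, (if (∀ s ∈ L, w.2 * B.i s.2.1 * w.2⁻¹ = B.i s.1 * (w.1 ^ m) ^ s.2.2) then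
        χ w.1 * χ' (w.2⁻¹ * w.1⁻¹ * w.2) else 0) = ∑ x, ∑ x', K₁ * K₂ * (a x * b x' *
        (if (∀ s ∈ L, w.2 * B.i s.2.1 * w.2⁻¹ = B.i s.1 * (w.1 ^ m) ^ s.2.2) then
        fc B (p1 L) x w.1⁻¹ * fc B (p2 L) x' (w.2⁻¹ * w.1 * w.2) else 0)) := by
      intro w
      by_cases hw : ∀ s ∈ L, w.2 * B.i s.2.1 * w.2⁻¹ = B.i s.1 * (w.1 ^ m) ^ s.2.2
      · rw [if_pos hw, hX, hX']
        simp only [if_pos hw]
        have e1 : (w.2⁻¹ * w.1⁻¹ * w.2)⁻¹ = w.2⁻¹ * w.1 * w.2 := by group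
        rw [e1, mul_mul_mul_comm, Finset.sum_mul_sum, Finset.mul_sum]
        refine Finset.sum_congr rfl fun x _ => ?_
        rw [Finset.mul_sum]
        refine Finset.sum_congr rfl fun x' _ => ?_
        ring
      · rw [if_neg hw]
        simp only [if_neg hw, mul_zero, Finset.sum_const_zero]
    rw [Finset.sum_congr rfl fun w _ => h3 w, Finset.sum_comm, Finset.mul_sum]
    refine Finset.sum_congr rfl fun x _ => ?_
    rw [Finset.sum_comm, Finset.mul_sum]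
    refine Finset.sum_congr rfl fun x' _ => ?_
    rw [Finset.mul_sum, Finset.mul_sum]
  -- the pointwise identity
  have key : ∀ τ ∈ E₀, ∀ y : V₀, (∀ s ∈ L, τ (s.1 * y ^ s.2.2) = s.2.1) →
      K₁ * K₂ * (a y⁻¹ * b (τ y⁻¹)⁻¹ * (c₁ * c₂ * E y⁻¹)) =
        c₁ * c₂ / ℓ ^ 2 * (B.S (p1 L) * B.S (p2 L)) *
          (lam B (p1 L) χ y * starRingEnd ℂ (lam B (p2 L) χ' (τ y))) := by
    intro τ hτ y hy
    have hmap := map_eq L τ y hy
    have hW : p1 L ⊔ Subgroup.zpowers y ≠ ⊥ := fun h0 => h1 (le_bot_iff.1 (h0 ▸ le_sup_left))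
    obtain ⟨t, ht, hti⟩ := hB.sur τ hτ
    have hcj := hCJT ℓ M hM h2 V₀ G E₀ hFr B hB τ hτ t ht hti (p1 L ⊔ Subgroup.zpowers y)
    have hcc := hcj.2.2.1
    have hdd := (hcj.2.2.2.2.2 hW).1
    rw [hmap] at hcc hdd
    have hep := eps_eq hCJT hM h2 hFr hB h1 h2' hτ hmap
    have q1 := deg_quot hFr.cd hB h1 y
    have q2 := deg_quot hFr.cd hB h2' (τ y)
    rw [hcc, hdd] at q2
    have u1 := ux_ne hB h1 y
    have u2 := ux_ne hB h2' (τ y)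
    have d1 := (D_pos hB h1).ne'
    have d2 := (D_pos hB h2').ne'
    have cw := (C_pos (B := B) (p1 L ⊔ Subgroup.zpowers y)).ne'
    have e1 : (ep B (p1 L) y : ℚ) = (B.D (p1 L ⊔ Subgroup.zpowers y) : ℚ) *
        Nat.card (B.C (p1 L)) / (ux B.U (p1 L) y *
          (Nat.card (B.C (p1 L ⊔ Subgroup.zpowers y)) * B.D (p1 L))) := by
      rw [eq_div_iff (mul_ne_zero u1 (mul_ne_zero cw d1)), q1]
      ring
    have e2 : (ep B (p2 L) (τ y) : ℚ) = (B.D (p1 L ⊔ Subgroup.zpowers y) : ℚ) *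
        Nat.card (B.C (p2 L)) / (ux B.U (p2 L) (τ y) *
          (Nat.card (B.C (p1 L ⊔ Subgroup.zpowers y)) * B.D (p2 L))) := by
      rw [eq_div_iff (mul_ne_zero u2 (mul_ne_zero cw d2)), q2]
      ring
    have hepC : ((ep B (p1 L) y : ℚ) : ℂ) * ((ep B (p2 L) (τ y) : ℚ) : ℂ) =
        B.S (p1 L) * B.S (p2 L) := by
      exact_mod_cast congrArg (fun z : ℚ => (z : ℂ)) hep
    rw [← hepC, e1, e2]
    push_cast
    rw [← hc₁, ← hc₂]
    have ei : (τ y⁻¹)⁻¹ = τ y := by rw [map_inv, inv_inv]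
    rw [ei, ha, hb, hE, hK₁, hK₂]
    simp only
    rw [lin_conj hl1, ux_inv, Subgroup.zpowers_inv]
    have u1' : ((ux B.U (p1 L) y : ℚ) : ℂ) ≠ 0 := by exact_mod_cast u1
    have u2' : ((ux B.U (p2 L) (τ y) : ℚ) : ℂ) ≠ 0 := by exact_mod_cast u2
    have d1' : (B.D (p1 L) : ℂ) ≠ 0 := by exact_mod_cast d1
    have d2' : (B.D (p2 L) : ℂ) ≠ 0 := by exact_mod_cast d2
    have cw' : (Nat.card (B.C (p1 L ⊔ Subgroup.zpowers y)) : ℂ) ≠ 0 := by exact_mod_cast cw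
    field_simp
  -- assembly
  have hR : (∑ᶠ w ∈ {w : MulAut V₀ × V₀ | w.1 ∈ E₀ ∧ ∀ s ∈ L, w.1 (s.1 * w.2 ^ s.2.2) = s.2.1},
      lam B (p1 L) χ w.2 * starRingEnd ℂ (lam B (p2 L) χ' (w.1 w.2))) =
      ∑ y : V₀, ∑ τ : MulAut V₀, if (τ ∈ E₀ ∧ ∀ s ∈ L, τ (s.1 * y ^ s.2.2) = s.2.1) then
      lam B (p1 L) χ y * starRingEnd ℂ (lam B (p2 L) χ' (τ y)) else 0 := by
    rw [finsum_mem_ite, Fintype.sum_prod_type, Finset.sum_comm]
  rw [hS]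
  simp only [hT]
  rw [hR, ← hc₁, ← hc₂, Finset.mul_sum, Finset.mul_sum, ← Equiv.sum_comp (Equiv.inv V₀)]
  refine Finset.sum_congr rfl fun y _ => ?_
  change K₁ * K₂ * ∑ x', a y⁻¹ * b x' * (c₁ * c₂ * E y⁻¹ * ∑ τ : MulAut V₀,
        if (τ ∈ E₀ ∧ τ y⁻¹ = x'⁻¹ ∧ ∀ s ∈ Lm, τ (s.1 * y⁻¹ ^ s.2.2) = s.2.1) then (1 : ℂ) else 0) = _
  have h5 : ∀ x' : V₀, a y⁻¹ * b x' * (c₁ * c₂ * E y⁻¹ * ∑ τ : MulAut V₀,
        if (τ ∈ E₀ ∧ τ y⁻¹ = x'⁻¹ ∧ ∀ s ∈ Lm, τ (s.1 * y⁻¹ ^ s.2.2) = s.2.1) then (1 : ℂ) else 0) =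
      ∑ τ : MulAut V₀, if x' = (τ y⁻¹)⁻¹ then
        (if (τ ∈ E₀ ∧ ∀ s ∈ Lm, τ (s.1 * y⁻¹ ^ s.2.2) = s.2.1) then
          a y⁻¹ * b x' * (c₁ * c₂ * E y⁻¹) else 0) else 0 := by
    intro x'
    rw [Finset.mul_sum, Finset.mul_sum]
    refine Finset.sum_congr rfl fun τ _ => ?_
    by_cases hx : x' = (τ y⁻¹)⁻¹
    · have hx' : τ y⁻¹ = x'⁻¹ := by rw [hx, inv_inv]
      rw [if_pos hx]
      by_cases hc : τ ∈ E₀ ∧ ∀ s ∈ Lm, τ (s.1 * y⁻¹ ^ s.2.2) = s.2.1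
      · rw [if_pos hc, if_pos ⟨hc.1, hx', hc.2⟩, mul_one]
      · rw [if_neg hc, if_neg (fun h0 => hc ⟨h0.1, h0.2.2⟩), mul_zero, mul_zero]
    · rw [if_neg hx, if_neg (fun h0 => hx (by rw [h0.2.1, inv_inv])), mul_zero, mul_zero]
  rw [Finset.sum_congr rfl fun x' _ => h5 x', Finset.sum_comm, Finset.mul_sum, Finset.mul_sum]
  refine Finset.sum_congr rfl fun τ _ => ?_
  rw [Finset.sum_ite_eq' Finset.univ, if_pos (Finset.mem_univ _)]
  have h6 : (∀ s ∈ Lm, τ (s.1 * y⁻¹ ^ s.2.2) = s.2.1) ↔ ∀ s ∈ L, τ (s.1 * y ^ s.2.2) = s.2.1 := by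
    constructor
    · intro h s hs
      have h4 : (s.1, s.2.1, -s.2.2) ∈ Lm := by
        rw [hLm]
        change (s.1, s.2.1, - -s.2.2) ∈ L
        rw [neg_neg]
        exact hs
      have := h _ h4
      simp only at this
      rw [inv_zpow, zpow_neg, inv_inv] at this
      exact this
    · intro h s hs
      rw [hLm] at hs
      have := h _ hs
      simp only at this
      rw [zpow_neg] at this
      rw [inv_zpow]
      exact this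
  by_cases hc : τ ∈ E₀ ∧ ∀ s ∈ L, τ (s.1 * y ^ s.2.2) = s.2.1
  · rw [if_pos hc, if_pos ⟨hc.1, h6.2 hc.2⟩]
    exact key τ hc.1 y hc.2
  · rw [if_neg hc, if_neg (fun h0 => hc ⟨h0.1, h6.1 h0.2⟩), mul_zero, mul_zero]

end Pool.Agent.PP.SO.H59
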