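import Pool.Agent.ASO.Stmts3

open scoped BigOperators

noncomputable section

namespace Pool.Agent.PP.SO.H59

open Pool.Agent.Helper51_AWC Pool.Agent.Helper79_WRA Pool.Agent.PP Pool.Agent.PP.KF
open Pool.Agent.PP.K9 Pool.Agent.PP.K9.H97 Pool.Agent.PP.H75 Pool.Agent.PP.T3 Pool.Agent.PP.SO

/-- the trace of an operator with `T ^ (n + 1) = T` is an algebraic integer -/
theorem trace_integral {n : ℕ} (T : Module.End ℂ (Fin n → ℂ)) (k : ℕ) (hk : 0 < k)
    (hT : T ^ (k + 1) = T) : IsIntegral ℤ (LinearMap.trace ℂ _ T) := by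
  have hs : T.charpoly.Splits := IsAlgClosed.splits _
  rw [Module.End.trace_eq_sum_roots_charpoly_of_splits hs]
  apply IsIntegral.multiset_sum
  intro μ hμ
  have h1 : T.charpoly.IsRoot μ := (Polynomial.mem_roots'.1 hμ).2
  have h2 := (Module.End.hasEigenvalue_iff_isRoot_charpoly T μ).2 h1
  obtain ⟨v, hv⟩ := h2.exists_hasEigenvector
  have h3 : μ ^ (k + 1) = μ := by
    have h4 : (T ^ (k + 1)) v = μ ^ (k + 1) • v := hv.pow_apply _
    have h4' : T v = μ • v := hv.apply_eq_smul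
    rw [hT, h4'] at h4
    have h5 : (μ - μ ^ (k + 1)) • v = 0 := by
      rw [sub_smul, ← h4, sub_self]
    rcases smul_eq_zero.1 h5 with h6 | h6
    · exact (sub_eq_zero.1 h6).symm
    · exact absurd h6 hv.2
  by_cases h0 : μ = 0
  · rw [h0]
    exact isIntegral_zero
  · have h4 : μ ^ k = 1 := by
      rw [pow_succ] at h3
      exact mul_right_cancel₀ h0 (by rw [h3, one_mul])
    apply IsIntegral.of_pow (n := k) hk
    rw [h4]
    exact isIntegral_one

/-- the average of a character over a coset of a subgroup of the centraliser -/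
theorem avg_integral {H : Type} [Group H] [Finite H] {χ : H → ℂ} (hχ : χ ∈ Irr H) (s : H)
    (P : Subgroup H) [Fintype P] (hP : ∀ x ∈ P, s * x = x * s) :
    IsIntegral ℤ ((Fintype.card P : ℂ)⁻¹ * ∑ x : P, χ (s * x)) := by
  obtain ⟨n, ρ, hρ, rfl⟩ := hχ
  have hc : (Fintype.card P : ℂ) ≠ 0 := by exact_mod_cast Fintype.card_ne_zero
  obtain ⟨E, hE⟩ : ∃ E : Module.End ℂ (Fin n → ℂ), E = (Fintype.card P : ℂ)⁻¹ • ∑ x : P, ρ x :=
    ⟨_, rfl⟩
  have hxE : ∀ x : P, ρ x * E = E := by
    intro x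
    rw [hE, mul_smul_comm, Finset.mul_sum]
    congr 1
    rw [← Equiv.sum_comp (Equiv.mulLeft x) (fun y : P => ρ y)]
    refine Finset.sum_congr rfl fun y _ => ?_
    rw [← map_mul]
    rfl
  have hEE : E * E = E := by
    have h1 : E * E = ((Fintype.card P : ℂ)⁻¹ • ∑ x : P, ρ x) * E := by rw [← hE]
    rw [h1, smul_mul_assoc, Finset.sum_mul, Finset.sum_congr rfl fun x _ => hxE x,
      Finset.sum_const, Finset.card_univ, ← Nat.cast_smul_eq_nsmul ℂ, smul_smul,
      inv_mul_cancel₀ hc, one_smul]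
  have hsE : ρ s * E = E * ρ s := by
    rw [hE, mul_smul_comm, smul_mul_assoc, Finset.mul_sum, Finset.sum_mul]
    congr 1
    refine Finset.sum_congr rfl fun x _ => ?_
    rw [← map_mul, ← map_mul, hP x x.2]
  have hpow : ∀ k : ℕ, (ρ s * E) ^ (k + 1) = ρ (s ^ (k + 1)) * E := by
    intro k
    induction k with
    | zero => rw [zero_add, pow_one, pow_one]
    | succ k ih =>
      rw [pow_succ, ih]
      calc ρ (s ^ (k + 1)) * E * (ρ s * E) = ρ (s ^ (k + 1)) * (E * ρ s) * E := by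
            simp only [mul_assoc]
        _ = ρ (s ^ (k + 1)) * (ρ s * E) * E := by rw [hsE]
        _ = ρ (s ^ (k + 1)) * ρ s * (E * E) := by simp only [mul_assoc]
        _ = ρ (s ^ (k + 1 + 1)) * E := by rw [hEE, ← map_mul, ← pow_succ]
  have hT : (ρ s * E) ^ (orderOf s + 1) = ρ s * E := by
    rw [hpow, pow_succ, pow_orderOf_eq_one, one_mul]
  have h1 := trace_integral (ρ s * E) (orderOf s) (orderOf_pos s) hT
  have h2 : LinearMap.trace ℂ _ (ρ s * E) =
      (Fintype.card P : ℂ)⁻¹ * ∑ x : P, ρ.character (s * x) := by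
    rw [hE, mul_smul_comm, Finset.mul_sum, map_smul, map_sum, smul_eq_mul]
    congr 1
    refine Finset.sum_congr rfl fun x _ => ?_
    rw [← map_mul]
    rfl
  rw [← h2]
  exact h1

theorem prj : PrjStmt := by
  intro ℓ hℓ M hM hℓM H _ _ f hcl hsing hint s
  classical
  have hH : Fintype H := Fintype.ofFinite H
  by_cases hfs : f s = 0
  · rw [hfs, zero_div]
    exact (RM M).zero_mem
  have hreg : Reg ℓ s := by
    by_contra h
    exact hfs (hsing s h)
  have hI : Fintype (Irr H) := Fintype.ofFinite _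
  have hcH : (Nat.card H : ℂ) ≠ 0 := by exact_mod_cast Nat.card_pos.ne'
  -- the expansion
  obtain ⟨c, hc⟩ : ∃ c : Irr H → ℂ,
      c = fun χ : Irr H => (Nat.card H : ℂ)⁻¹ * ∑ h : H, f h * χ.1 h⁻¹ := ⟨_, rfl⟩
  have hcM : ∀ χ, c χ ∈ RM M := by
    intro χ
    have := hint χ χ.2
    rw [finsum_eq_sum_of_fintype] at this
    rw [hc]
    exact this
  have hexp : f = fun x => ∑ χ : Irr H, c χ * (χ : H → ℂ) x := by
    have : (fun x => f x - ∑ χ : Irr H, c χ * (χ : H → ℂ) x) = 0 := by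
      apply irr_complete'
      · intro g h
        rw [hcl]
        congr 1
        refine Finset.sum_congr rfl fun χ _ => ?_
        rw [irr_conj χ.2]
      · intro ψ hψ
        have e : ∑ g : H, (∑ χ : Irr H, c χ * (χ : H → ℂ) g) * ψ g⁻¹ =
            c ⟨ψ, hψ⟩ * (Fintype.card H : ℂ) := by
          simp only [Finset.sum_mul]
          rw [Finset.sum_comm, Finset.sum_eq_single_of_mem ⟨ψ, hψ⟩ (Finset.mem_univ _)]
          · simp_rw [mul_assoc]
            rw [← Finset.mul_sum, irr_orth_self hψ]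
          · intro χ _ hne
            simp_rw [mul_assoc]
            rw [← Finset.mul_sum, irr_orth_ne χ.2 hψ (fun h => hne (Subtype.ext h)), mul_zero]
        have e2 : ∑ g : H, f g * ψ g⁻¹ = c ⟨ψ, hψ⟩ * (Fintype.card H : ℂ) := by
          rw [hc]
          change ∑ g : H, f g * ψ g⁻¹ =
            (Nat.card H : ℂ)⁻¹ * (∑ h : H, f h * ψ h⁻¹) * (Fintype.card H : ℂ)
          rw [← Nat.card_eq_fintype_card, mul_comm ((Nat.card H : ℂ)⁻¹), mul_assoc,
            inv_mul_cancel₀ hcH, mul_one]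
        have e3 : ∑ g : H, (f g - ∑ χ : Irr H, c χ * (χ : H → ℂ) g) * ψ g⁻¹ =
            ∑ g : H, f g * ψ g⁻¹ - ∑ g : H, (∑ χ : Irr H, c χ * (χ : H → ℂ) g) * ψ g⁻¹ := by
          rw [← Finset.sum_sub_distrib]
          exact Finset.sum_congr rfl fun g _ => sub_mul _ _ _
        rw [e3, e, e2, sub_self]
    funext x
    exact sub_eq_zero.1 (congrFun this x)
  -- the Sylow subgroup
  obtain ⟨P⟩ := Sylow.nonempty (p := ℓ) (G := Cu s)
  obtain ⟨Q, hQ⟩ : ∃ Q : Subgroup H, Q = (P : Subgroup (Cu s)).map (Cu s).subtype := ⟨_, rfl⟩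
  have hQF : Fintype Q := Fintype.ofFinite Q
  have hQs : ∀ x ∈ Q, s * x = x * s := by
    intro x hx
    rw [hQ] at hx
    obtain ⟨y, hy, rfl⟩ := hx
    exact (Subgroup.mem_centralizer_singleton_iff.1 y.2).symm
  have hQp : IsPGroup ℓ Q := by
    rw [hQ]
    exact P.2.map _
  have hcardQ : Nat.card Q = Nat.card P := by
    rw [hQ]
    exact Nat.card_congr ((P : Subgroup (Cu s)).equivMapOfInjective _
      (Subgroup.subtype_injective _)).symm.toEquiv
  -- the sum
  have hsum : ∑ x : Q, f (s * x) = f s := by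
    rw [Finset.sum_eq_single_of_mem (1 : Q) (Finset.mem_univ _)]
    · rw [OneMemClass.coe_one, mul_one]
    · intro x _ hx
      apply hsing
      intro hr
      have hcomm : Commute s (x : H) := hQs x x.2
      obtain ⟨n, hn⟩ := (IsPGroup.iff_orderOf.1 hQp) x
      have hn' : orderOf (x : H) = ℓ ^ n := by
        rw [Subgroup.orderOf_coe]
        exact hn
      have hn0 : n ≠ 0 := by
        rintro rfl
        rw [pow_zero, orderOf_eq_one_iff] at hn'
        exact hx (Subtype.ext hn')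
      have hcop : (orderOf s).Coprime (orderOf (x : H)) := by
        rw [hn']
        exact Nat.Coprime.pow_right n hreg
      have ho := hcomm.orderOf_mul_eq_mul_orderOf_of_coprime hcop
      have h1 : ℓ ∣ orderOf (s * x) := by
        rw [ho, hn']
        exact Dvd.dvd.mul_left (dvd_pow_self ℓ hn0) _
      have h2 : (orderOf (s * x)).Coprime ℓ := hr
      have h3 := Nat.Coprime.eq_one_of_dvd h2.symm h1
      exact hℓ.out.one_lt.ne' h3
  have hmain : (Nat.card Q : ℂ)⁻¹ * f s ∈ RM M := by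
    rw [← hsum, hexp]
    simp only
    rw [Finset.sum_comm, Finset.mul_sum]
    refine (RM M).sum_mem fun χ _ => ?_
    rw [← Finset.mul_sum, mul_left_comm]
    refine (RM M).mul_mem (hcM χ) (RM_of_int ?_)
    have := avg_integral χ.2 s Q hQs
    rw [Nat.card_eq_fintype_card]
    exact this
  -- the index
  obtain ⟨m, hm⟩ : Nat.card P ∣ Nat.card (Cu s) := Subgroup.card_subgroup_dvd_card _
  have hml : ¬ ℓ ∣ m := by
    have h1 := P.not_dvd_index
    have h2 := Subgroup.card_mul_index (P : Subgroup (Cu s))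
    have h3 : (P : Subgroup (Cu s)).index = m := by
      have : 0 < Nat.card P := Nat.card_pos
      exact Nat.eq_of_mul_eq_mul_left this (h2.trans hm)
    rw [h3] at h1
    exact h1
  have hmM : (m : integralClosure ℤ ℂ) ∉ M := by
    intro h
    have hcop : Nat.Coprime m ℓ := (Nat.coprime_comm.1 ((Nat.Prime.coprime_iff_not_dvd hℓ.out).2 hml))
    have hb := Nat.gcd_eq_gcd_ab m ℓ
    rw [hcop.gcd_eq_one] at hb
    have h1 : (1 : integralClosure ℤ ℂ) = m * (Nat.gcdA m ℓ : ℤ) + ℓ * (Nat.gcdB m ℓ : ℤ) := by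
      exact_mod_cast congrArg (fun z : ℤ => (z : integralClosure ℤ ℂ)) hb
    apply one_notMem (M := M)
    rw [h1]
    exact M.add_mem (M.mul_mem_right _ h) (M.mul_mem_right _ hℓM)
  have hm0 : (m : ℂ) ≠ 0 := by
    intro h
    have : m = 0 := by exact_mod_cast h
    exact hml (this ▸ dvd_zero ℓ)
  have hmi : (m : ℂ)⁻¹ ∈ RM M := by
    refine ⟨m, 1, hmM, ?_⟩
    push_cast
    exact mul_inv_cancel₀ hm0
  have hQ0 : (Nat.card Q : ℂ) ≠ 0 := by exact_mod_cast Nat.card_pos.ne'
  have heq : f s / Nat.card (Cu s) = (m : ℂ)⁻¹ * ((Nat.card Q : ℂ)⁻¹ * f s) := by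
    rw [hm, ← hcardQ]
    push_cast
    field_simp
  rw [heq]
  exact (RM M).mul_mem hmi hmain

end Pool.Agent.PP.SO.H59
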